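import Pool.Agent.J4H53.OB.Final

/-!
# Outer billiards: a foliation up to a leaf of circumscribed parallelograms forces an ellipse
-/

namespace Pool.Agent.Results.MP_ae5b4e_an.OuterParallelograms

open Real Set Pool.Agent.J4H53.OB

/-- The unit circle with the concentric circles up to the circle of the circumscribed squares is an
example of the foliations in `result`. -/
theorem concentric : OuterFoliation (fun θ => Complex.exp (θ * Complex.I))
    (fun c θ => θ + c * (π / 2)) where
  oval :=
    { per := fun θ => by
        push_cast
        rw [add_mul, Complex.exp_add, Complex.exp_two_pi_mul_I, mul_one]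
      normal := ⟨fun _ => 1, continuous_const, fun θ => ⟨one_pos, by
        have h1 : HasDerivAt (fun θ : ℝ => (θ : ℂ) * Complex.I) Complex.I θ := by
          simpa using (Complex.ofRealCLM.hasDerivAt (x := θ)).mul_const Complex.I
        refine h1.cexp.congr_deriv ?_
        push_cast
        ring⟩⟩ }
  smooth := by fun_prop
  zero θ := by simp
  per c _ θ := by ring
  deriv_angle c _ θ := by simp
  deriv_param c _ θ := by
    have h : HasDerivAt (fun c : ℝ => θ + c * (π / 2)) (π / 2) c := by
      simpa using ((hasDerivAt_id c).mul_const (π / 2)).const_add θ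
    rw [h.deriv]
    positivity
  lt_pi c hc θ := by
    have := pi_pos
    nlinarith [hc.2]
  outer := Or.inl fun θ => by ring
  refl c hc θ z h1 h2 := by
    rw [onTangent_iff _ 0] at h1 h2 ⊢
    have e : ∀ x : ℝ, hh (fun θ : ℝ => Complex.exp (θ * Complex.I)) 0 x = 1 := by
      intro x
      unfold hh
      simp only [sub_zero, exp_re, exp_im]
      have := sin_sq_add_cos_sq x
      linear_combination this
    rw [e] at h1 h2 ⊢
    set φ := θ + c * (π / 2) with hφ
    have c1 : θ = φ - c * (π / 2) := by ring
    rw [c1, cos_sub, sin_sub] at h1
    simp only [sub_zero, Complex.sub_re, Complex.sub_im, Complex.mul_re, Complex.mul_im,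
      Complex.re_ofNat, Complex.im_ofNat, exp_re, exp_im] at h1 h2 ⊢
    rw [cos_add φ (c * (π / 2)), sin_add φ (c * (π / 2))]
    have e1 := sin_sq_add_cos_sq φ
    linear_combination h1 - 2 * cos (c * (π / 2)) * h2 + 2 * cos (c * (π / 2)) * e1

/-- Let `γ` be a closed strictly convex plane curve of class `C²` with positive curvature, and let
the closed region between `γ` and an outer leaf be foliated, in a `C²` way, by invariant curves of
the outer billiard of `γ`, that is, the involution of every tangent line of `γ` that exchanges the
two points of each leaf is the point reflection in the point of tangency.  Suppose that the outer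
leaf consists of the vertices of parallelograms circumscribed about `γ`, or that `γ` is centrally
symmetric and the orbits on the outer leaf are 4-periodic (see `OuterFoliation`).  Then `γ` is an
ellipse, and all leaves are ellipses homothetic to `γ` with the same centre. -/
theorem result (γ : ℝ → ℂ) (Φ : ℝ → ℝ → ℝ) (F : OuterFoliation γ Φ) :
    ∃ (o : ℂ) (a b d : ℝ) (μ : ℝ → ℝ), 0 < a ∧ 0 < a * d - b ^ 2 ∧
      range γ = {z | quad a b d (z - o) = 1} ∧
      ∀ c ∈ Ioc (0 : ℝ) 1, 1 < μ c ∧ leafSet γ Φ c = {z | quad a b d (z - o) = μ c} :=
  main F

end Pool.Agent.Results.MP_ae5b4e_an.OuterParallelograms
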